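import Pool.Agent.H801R3.NS.Defs

/-!
# (PART) power diagrams with prescribed masses (semi-discrete optimal transport)
-/

set_option autoImplicit false

open MeasureTheory
open scoped ENNReal Pointwise Matrix

namespace H801NS

section
variable {m : ℕ} {κ : Type} [Fintype κ] [Nonempty κ]

/-- the maximum of the affine functions -/
noncomputable def th (η : κ → Fin m → ℝ) (c : κ → ℝ) (s : Fin m → ℝ) : ℝ :=
  Finset.univ.sup' Finset.univ_nonempty (fun k => η k ⬝ᵥ s + c k)

lemma le_th (η : κ → Fin m → ℝ) (c : κ → ℝ) (s : Fin m → ℝ) (k : κ) :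
    η k ⬝ᵥ s + c k ≤ th η c s :=
  Finset.le_sup' (fun k => η k ⬝ᵥ s + c k) (Finset.mem_univ k)

lemma th_le {η : κ → Fin m → ℝ} {c : κ → ℝ} {s : Fin m → ℝ} {B : ℝ}
    (h : ∀ k, η k ⬝ᵥ s + c k ≤ B) : th η c s ≤ B :=
  Finset.sup'_le _ _ fun k _ => h k

lemma cont_th (η : κ → Fin m → ℝ) :
    Continuous (Function.uncurry fun (c : κ → ℝ) (s : Fin m → ℝ) => th η c s) := by
  unfold th Function.uncurry
  refine Continuous.finset_sup'_apply _ fun k _ => ?_
  refine Continuous.add ?_ ((continuous_apply k).comp continuous_fst)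
  exact Continuous.dotProduct continuous_const continuous_snd

lemma cont_th' (η : κ → Fin m → ℝ) (c : κ → ℝ) : Continuous (th η c) :=
  (cont_th η).comp (Continuous.prodMk_right c)

/-- the functional to be minimised -/
noncomputable def Xi (η : κ → Fin m → ℝ) (X : Set (Fin m → ℝ)) (μ : κ → ℝ) (c : κ → ℝ) : ℝ :=
  (∫ s in X, th η c s) - ∑ k, μ k * c k

lemma cont_Xi (η : κ → Fin m → ℝ) {X : Set (Fin m → ℝ)} (hX : IsCompact X) (μ : κ → ℝ) :
    Continuous (Xi η X μ) := by
  unfold Xi
  refine Continuous.sub ?_ ?_
  · exact continuous_parametric_integral_of_continuous (cont_th η) hX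
  · exact continuous_finsetSum _ fun k _ => continuous_const.mul (continuous_apply k)

lemma int_th (η : κ → Fin m → ℝ) {X : Set (Fin m → ℝ)} (hX : IsCompact X) (c : κ → ℝ) :
    IntegrableOn (th η c) X :=
  (cont_th' η c).continuousOn.integrableOn_compact hX

lemma th_shift (η : κ → Fin m → ℝ) (c : κ → ℝ) (a : ℝ) (s : Fin m → ℝ) :
    th η (fun k => c k - a) s = th η c s - a := by
  apply le_antisymm
  · apply th_le
    intro k
    have := le_th η c s k
    linarith
  · have : th η c s ≤ th η (fun k => c k - a) s + a := by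
      apply th_le
      intro k
      have := le_th η (fun k => c k - a) s k
      linarith
    linarith

lemma Xi_shift (η : κ → Fin m → ℝ) {X : Set (Fin m → ℝ)} (hX : IsCompact X) {μ : κ → ℝ}
    (hμ : ∑ k, μ k = volume.real X) (c : κ → ℝ) (a : ℝ) :
    Xi η X μ (fun k => c k - a) = Xi η X μ c := by
  unfold Xi
  have h1 : (∫ s in X, th η (fun k => c k - a) s) = (∫ s in X, th η c s) - volume.real X * a := by
    have : (fun s => th η (fun k => c k - a) s) = fun s => th η c s - a := by
      funext s; exact th_shift η c a s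
    rw [this, integral_sub (int_th η hX c)]
    · rw [setIntegral_const, smul_eq_mul]
    · exact integrableOn_const (hs := hX.measure_lt_top.ne)
  rw [h1]
  have h2 : ∑ k, μ k * (c k - a) = ∑ k, μ k * c k - volume.real X * a := by
    rw [← hμ, Finset.sum_mul, ← Finset.sum_sub_distrib]
    exact Finset.sum_congr rfl fun k _ => by ring
  rw [h2]; ring

lemma exists_min (η : κ → Fin m → ℝ) {X : Set (Fin m → ℝ)} (hX : IsCompact X) {μ : κ → ℝ}
    (hpos : ∀ k, 0 < μ k) (hμ : ∑ k, μ k = volume.real X) :
    ∃ c : κ → ℝ, ∀ c', Xi η X μ c ≤ Xi η X μ c' := by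
  classical
  -- bound of the linear functions
  obtain ⟨R, hR0, hR⟩ : ∃ R : ℝ, 0 ≤ R ∧ ∀ s ∈ X, ∀ k, |η k ⬝ᵥ s| ≤ R := by
    have h : ∀ k, ∃ R : ℝ, ∀ s ∈ X, |η k ⬝ᵥ s| ≤ R := by
      intro k
      have hc : ContinuousOn (fun s : Fin m → ℝ => η k ⬝ᵥ s) X :=
        (Continuous.dotProduct continuous_const continuous_id).continuousOn
      obtain ⟨R, hR⟩ := hX.exists_bound_of_continuousOn hc
      exact ⟨R, fun s hs => by simpa using hR s hs⟩
    choose R hR using h
    refine ⟨∑ k, |R k|, Finset.sum_nonneg fun k _ => abs_nonneg _, fun s hs k => ?_⟩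
    calc |η k ⬝ᵥ s| ≤ R k := hR k s hs
      _ ≤ |R k| := le_abs_self _
      _ ≤ ∑ k, |R k| := Finset.single_le_sum (f := fun k => |R k|) (fun k _ => abs_nonneg _)
        (Finset.mem_univ k)
  set V := volume.real X with hV
  have hV0 : 0 ≤ V := measureReal_nonneg
  obtain ⟨μ0, hμ0, hμ0'⟩ : ∃ μ0 : ℝ, 0 < μ0 ∧ ∀ k, μ0 ≤ μ k := by
    obtain ⟨k0, -, hk0⟩ := Finset.exists_min_image Finset.univ μ Finset.univ_nonempty
    exact ⟨μ k0, hpos k0, fun k => hk0 k (Finset.mem_univ k)⟩
  set B := 2 * R * V / μ0 with hB
  have hB0 : 0 ≤ B := by positivity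
  -- upper bound at zero
  have h0 : Xi η X μ 0 ≤ R * V := by
    unfold Xi
    simp only [Pi.zero_apply, mul_zero, Finset.sum_const_zero, sub_zero]
    have : (∫ s in X, th η 0 s) ≤ ∫ s in X, R := by
      apply setIntegral_mono_on (int_th η hX 0) (integrableOn_const (hs := hX.measure_lt_top.ne))
        hX.measurableSet
      intro s hs
      apply th_le
      intro k
      have := le_abs_self (η k ⬝ᵥ s)
      have := hR s hs k
      simp only [Pi.zero_apply, add_zero]
      linarith
    rw [setIntegral_const, smul_eq_mul] at this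
    linarith
  -- lower bound
  have hlow : ∀ (c : κ → ℝ) (k0 k1 : κ), (∀ k, 0 ≤ c k) → c k0 = 0 → (∀ k, c k ≤ c k1) →
      μ k0 * c k1 - R * V ≤ Xi η X μ c := by
    intro c k0 k1 hc hk0 hk1
    unfold Xi
    have h1 : V * (c k1 - R) ≤ ∫ s in X, th η c s := by
      have : ∫ s in X, (c k1 - R) ≤ ∫ s in X, th η c s := by
        apply setIntegral_mono_on (integrableOn_const (hs := hX.measure_lt_top.ne)) (int_th η hX c)
          hX.measurableSet
        intro s hs
        have h2 := le_th η c s k1
        have h3 := neg_abs_le (η k1 ⬝ᵥ s)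
        have h4 := hR s hs k1
        linarith
      rw [setIntegral_const, smul_eq_mul] at this
      exact this
    have h2 : ∑ k, μ k * c k ≤ (V - μ k0) * c k1 := by
      have h3 : ∑ k, μ k * c k = ∑ k ∈ Finset.univ.erase k0, μ k * c k := by
        rw [← Finset.add_sum_erase _ _ (Finset.mem_univ k0), hk0, mul_zero, zero_add]
      have h4 : V - μ k0 = ∑ k ∈ Finset.univ.erase k0, μ k := by
        rw [← hμ, ← Finset.add_sum_erase _ _ (Finset.mem_univ k0)]; ring
      rw [h3, h4, Finset.sum_mul]
      exact Finset.sum_le_sum fun k _ => mul_le_mul_of_nonneg_left (hk1 k) (hpos k).le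
    nlinarith
  -- minimum over the box
  have hcomp : IsCompact (Set.Icc (0 : κ → ℝ) (fun _ => B)) := isCompact_Icc
  have hne : (Set.Icc (0 : κ → ℝ) (fun _ => B)).Nonempty := ⟨0, le_refl _, fun _ => hB0⟩
  obtain ⟨c, hc, hmin⟩ := hcomp.exists_isMinOn hne (cont_Xi η hX μ).continuousOn
  refine ⟨c, fun c' => ?_⟩
  obtain ⟨k0, -, hk0⟩ := Finset.exists_min_image Finset.univ c' Finset.univ_nonempty
  obtain ⟨k1, -, hk1⟩ := Finset.exists_max_image Finset.univ c' Finset.univ_nonempty
  rw [← Xi_shift η hX hμ c' (c' k0)]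
  set c'' : κ → ℝ := fun k => c' k - c' k0 with hc''
  have hnn : ∀ k, 0 ≤ c'' k := fun k => by
    have := hk0 k (Finset.mem_univ k)
    simp only [hc'']; linarith
  have hle : ∀ k, c'' k ≤ c'' k1 := fun k => by
    have := hk1 k (Finset.mem_univ k)
    simp only [hc'']; linarith
  by_cases hM : c'' k1 ≤ B
  · exact hmin ⟨fun k => hnn k, fun k => (hle k).trans hM⟩
  · have h1 : Xi η X μ c ≤ Xi η X μ 0 := hmin ⟨le_refl _, fun _ => hB0⟩
    have h2 := hlow c'' k0 k1 hnn (by simp [hc'']) hle
    have h3 : 2 * R * V ≤ μ k0 * c'' k1 := by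
      have h4 : μ0 * B = 2 * R * V := by rw [hB]; field_simp
      rw [← h4]
      exact mul_le_mul (hμ0' k0) (le_of_lt (not_le.mp hM)) hB0 (hpos k0).le
    linarith

end

/-- (PART) power diagrams with prescribed masses exist -/
theorem t_PART : S_PART := by
  classical
  intro m κ _ _ η X μ hη hX hpos hμ
  obtain ⟨c, hc⟩ := exists_min η hX hpos hμ
  refine ⟨c, fun k => ?_⟩
  -- the closed sets
  set W : ℝ → Set (Fin m → ℝ) := fun a => X ∩ {s | th η c s ≤ η k ⬝ᵥ s + c k + a} with hW
  have hWclosed : ∀ a, IsClosed {s | th η c s ≤ η k ⬝ᵥ s + c k + a} := fun a =>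
    isClosed_le (cont_th' η c)
      (((Continuous.dotProduct continuous_const continuous_id).add continuous_const).add
        continuous_const)
  have hWmeas : ∀ a, MeasurableSet (W a) := fun a => hX.measurableSet.inter (hWclosed a).measurableSet
  have hWfin : ∀ a, volume (W a) ≠ ⊤ := fun a =>
    ((measure_mono Set.inter_subset_left).trans_lt hX.measure_lt_top).ne
  have key : ∀ a : ℝ, 0 < a → μ k ≤ volume.real (W a) := by
    intro a ha
    have h1 := hc (Function.update c k (c k + a))
    unfold Xi at h1
    have h2 : ∑ l, μ l * Function.update c k (c k + a) l = ∑ l, μ l * c l + μ k * a := by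
      have : ∀ l, μ l * Function.update c k (c k + a) l = μ l * c l + (if l = k then μ k * a else 0) := by
        intro l
        by_cases hl : l = k
        · subst hl; simp; ring
        · simp [hl]
      simp only [this, Finset.sum_add_distrib, Finset.sum_ite_eq', Finset.mem_univ, if_true]
    rw [h2] at h1
    have h3 : (∫ s in X, th η (Function.update c k (c k + a)) s) ≤
        (∫ s in X, th η c s) + a * volume.real (W a) := by
      have h4 : (∫ s in X, th η (Function.update c k (c k + a)) s) ≤
          ∫ s in X, (th η c s + (W a).indicator (fun _ => a) s) := by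
        apply setIntegral_mono_on (int_th η hX _) _ hX.measurableSet
        · intro s hs
          apply th_le
          intro l
          by_cases hl : l = k
          · subst hl
            rw [Function.update_self]
            by_cases hs' : s ∈ W a
            · rw [Set.indicator_of_mem hs']
              have := le_th η c s l
              linarith
            · rw [Set.indicator_of_notMem hs']
              have : ¬ (th η c s ≤ η l ⬝ᵥ s + c l + a) := fun h => hs' ⟨hs, h⟩
              linarith
          · rw [Function.update_of_ne hl]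
            have h5 := le_th η c s l
            have h6 : 0 ≤ (W a).indicator (fun _ => a) s :=
              Set.indicator_nonneg (fun _ _ => ha.le) s
            linarith
        · refine (int_th η hX c).add ?_
          exact (integrableOn_const (hs := hX.measure_lt_top.ne)).indicator (hWmeas a)
      have h7 : ∫ s in X, (th η c s + (W a).indicator (fun _ => a) s) =
          (∫ s in X, th η c s) + a * volume.real (W a) := by
        rw [integral_add (int_th η hX c)
          ((integrableOn_const (hs := hX.measure_lt_top.ne)).indicator (hWmeas a))]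
        congr 1
        rw [integral_indicator (hWmeas a), Measure.restrict_restrict (hWmeas a)]
        have : W a ∩ X = W a := Set.inter_eq_left.mpr Set.inter_subset_left
        rw [this, setIntegral_const, smul_eq_mul, mul_comm]
      linarith
    have h8 : μ k * a ≤ a * volume.real (W a) := by linarith
    nlinarith
  -- the limit
  have hanti : Antitone fun n : ℕ => W (1 / ((n : ℝ) + 1)) := by
    intro i j hij s hs
    have h5 : th η c s ≤ η k ⬝ᵥ s + c k + 1 / ((j : ℝ) + 1) := hs.2
    have h6 : 1 / ((j : ℝ) + 1) ≤ 1 / ((i : ℝ) + 1) := by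
      apply one_div_le_one_div_of_le (by positivity)
      have : (i : ℝ) ≤ j := by exact_mod_cast hij
      linarith
    have h7 : th η c s ≤ η k ⬝ᵥ s + c k + 1 / ((i : ℝ) + 1) := by linarith
    exact ⟨hs.1, h7⟩
  have hInter : (⋂ n : ℕ, W (1 / ((n : ℝ) + 1))) = X ∩ cell η c k := by
    ext s
    simp only [Set.mem_iInter, hW, Set.mem_inter_iff, Set.mem_ofPred_eq]
    constructor
    · intro h
      refine ⟨(h 0).1, fun l => ?_⟩
      have h9 : th η c s ≤ η k ⬝ᵥ s + c k := by
        apply le_of_forall_pos_le_add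
        intro ε hε
        obtain ⟨n, hn⟩ := exists_nat_one_div_lt hε
        have := (h n).2
        linarith
      exact (le_th η c s l).trans h9
    · rintro ⟨hs, h⟩ n
      refine ⟨hs, ?_⟩
      have : 0 ≤ 1 / ((n : ℝ) + 1) := by positivity
      have h10 : th η c s ≤ η k ⬝ᵥ s + c k := th_le fun l => h l
      linarith
  have hlim := tendsto_measure_iInter_atTop (μ := volume)
    (s := fun n : ℕ => W (1 / ((n : ℝ) + 1))) (fun n => (hWmeas _).nullMeasurableSet) hanti
    ⟨0, hWfin _⟩
  rw [hInter] at hlim
  have hfin : volume (X ∩ cell η c k) ≠ ⊤ :=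
    ((measure_mono Set.inter_subset_left).trans_lt hX.measure_lt_top).ne
  have hlim' := (ENNReal.tendsto_toReal hfin).comp hlim
  refine ge_of_tendsto' hlim' fun n => ?_
  exact key _ (by positivity)

end H801NS
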