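import Mathlib

/-!
# Non-symmetric Mahler inequality with base 5/2: definitions and statements of the steps

All statements are `Prop`s `S_XXX` (helper801).  Notation: `K` convex body in `ℝᵐ` with the origin
in its interior, `gauge K` its gauge, `DD K` the convex hull of `K ∪ -K`.
-/

set_option autoImplicit false

open MeasureTheory
open scoped ENNReal Pointwise Matrix

namespace H801NS

/-- a (not necessarily symmetric) convex body with the origin in its interior -/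
structure NB {m : ℕ} (K : Set (Fin m → ℝ)) : Prop where
  comp : IsCompact K
  conv : Convex ℝ K
  zero : (0 : Fin m → ℝ) ∈ interior K

/-- the polar body -/
def pol {m : ℕ} (K : Set (Fin m → ℝ)) : Set (Fin m → ℝ) := {y | ∀ x ∈ K, x ⬝ᵥ y ≤ 1}

/-- convex hull of `K ∪ -K` -/
def DD {m : ℕ} (K : Set (Fin m → ℝ)) : Set (Fin m → ℝ) :=
  {z | ∃ t ∈ Set.Icc (0 : ℝ) 1, ∃ a ∈ K, ∃ b ∈ K, z = (1 - t) • a - t • b}

/-- cells of the power diagram of the vectors `η k` with weights `c k` -/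
def cell {m : ℕ} {κ : Type} (η : κ → Fin m → ℝ) (c : κ → ℝ) (k : κ) : Set (Fin m → ℝ) :=
  {z | ∀ l, η l ⬝ᵥ z + c l ≤ η k ⬝ᵥ z + c k}

/-- `exp (- r)` as an extended nonnegative real -/
noncomputable def ee (r : ℝ) : ℝ≥0∞ := ENNReal.ofReal (Real.exp (-r))

/-- (ONE) the one-dimensional functional inequality -/
def S_ONE : Prop := ∀ (c : ℝ≥0∞) (F h1 h2 : ℝ → ℝ≥0∞), c ≠ ⊤ →
  Measurable F → Measurable h1 → Measurable h2 →
  (∀ s x : ℝ, 0 ≤ x → c * F s ^ 5 * ee (4 * x) ≤ (h1 (s + x) * h2 s) ^ 4) →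
  c * 4 * (∫⁻ s, F s) ^ 5 ≤ ((∫⁻ z, h1 z) * ∫⁻ z, h2 z) ^ 4

/-- (FUN) the functional inequality in dimension `m` (induction on `m`, one coordinate at a time) -/
def S_FUN : Prop := ∀ (m : ℕ) (t : Fin m → Bool) (c : ℝ≥0∞) (F h1 h2 : (Fin m → ℝ) → ℝ≥0∞),
  c ≠ ⊤ → Measurable F → Measurable h1 → Measurable h2 →
  (∀ s x : Fin m → ℝ, (∀ i, 0 ≤ x i) →
    c * F s ^ 5 * ee (4 * ∑ i, x i) ≤
      (h1 (s + fun i => if t i then x i else 0) * h2 (s + fun i => if t i then 0 else x i)) ^ 4) →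
  c * 4 ^ m * (∫⁻ s, F s) ^ 5 ≤ ((∫⁻ z, h1 z) * ∫⁻ z, h2 z) ^ 4

/-- (CELL) the inequality on one cell.  Column `i` of `A` is a point of `K` (if `t i`) or of `-K`. -/
def S_CELL : Prop := ∀ (m : ℕ) (A : Matrix (Fin m) (Fin m) ℝ) (t : Fin m → Bool)
  (K P X : Set (Fin m → ℝ)) (r : ℝ), A.det ≠ 0 → NB K →
  (∀ i, (if t i then (fun j => A j i) else (fun j => - A j i)) ∈ K) →
  MeasurableSet P → MeasurableSet X → X ⊆ P →
  (∀ z ∈ P, ∀ i, ∀ x : ℝ, 0 ≤ x → (z + x • fun j => A j i) ∈ P) →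
  (∀ s ∈ X, gauge K s ≤ r ∧ gauge K (-s) ≤ r) →
  4 ^ m * ENNReal.ofReal |A.det| ^ 3 * ee (8 * r) * volume X ^ 5 ≤
    ((∫⁻ z in P, ee (gauge K z)) * ∫⁻ z in P, ee (gauge K (-z))) ^ 4

/-- (PART) power diagrams with prescribed masses exist (semi-discrete optimal transport) -/
def S_PART : Prop := ∀ (m : ℕ) (κ : Type) [Fintype κ] [Nonempty κ] (η : κ → Fin m → ℝ)
  (X : Set (Fin m → ℝ)) (μ : κ → ℝ), Function.Injective η → IsCompact X →
  (∀ k, 0 < μ k) → ∑ k, μ k = volume.real X →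
  ∃ c : κ → ℝ, ∀ k, μ k ≤ volume.real (X ∩ cell η c k)

/-- (OVER) different cells overlap in null sets -/
def S_OVER : Prop := ∀ (m : ℕ) (κ : Type) [Fintype κ] (η : κ → Fin m → ℝ) (c : κ → ℝ)
  (f : (Fin m → ℝ) → ℝ≥0∞), Function.Injective η → Measurable f →
  ∑ k, ∫⁻ z in cell η c k, f z ≤ ∫⁻ z, f z

/-- genericity: no vector `η` has `|η·V j| = 1` for more than `m` indices -/
def Gen {m N : ℕ} (V : Fin N → Fin m → ℝ) : Prop :=
  ∀ η : Fin m → ℝ, (Finset.univ.filter fun j => |η ⬝ᵥ V j| = 1).card ≤ m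

/-- a finite system of signed bases taken from `V` whose cones cover `ℝᵐ` -/
structure Sys {m N : ℕ} (V : Fin N → Fin m → ℝ) (κ : Type) [Fintype κ]
    (A : κ → Matrix (Fin m) (Fin m) ℝ) (t : κ → Fin m → Bool) (η : κ → Fin m → ℝ) : Prop where
  inj : Function.Injective η
  det : ∀ k, (A k).det ≠ 0
  col : ∀ k i, ∃ j, (if t k i then V j else - V j) = fun l => A k l i
  one : ∀ k i, η k ⬝ᵥ (fun l => A k l i) = 1
  feas : ∀ k j, |η k ⬝ᵥ V j| ≤ 1
  cover : ∀ x : Fin m → ℝ, ∃ k, ∃ c : Fin m → ℝ, (∀ i, 0 ≤ c i) ∧ x = (A k).mulVec c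

/-- (COVER) generic spanning families have such a system -/
def S_COVER : Prop := ∀ (m N : ℕ) (V : Fin N → Fin m → ℝ), Gen V →
  Bornology.IsBounded {η : Fin m → ℝ | ∀ j, |η ⬝ᵥ V j| ≤ 1} →
  ∃ (κ : Type) (_ : Fintype κ) (A : κ → Matrix (Fin m) (Fin m) ℝ) (t : κ → Fin m → Bool)
    (η : κ → Fin m → ℝ), Sys V κ A t η

/-- (GEN) small rescalings make a family generic -/
def S_GEN : Prop := ∀ (m N : ℕ) (V : Fin N → Fin m → ℝ) (ε : ℝ), 0 < ε → ε < 1 →
  ∃ r : Fin N → ℝ, (∀ j, 1 - ε < r j ∧ r j < 1) ∧ Gen fun j => r j • V j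

/-- (APPROX) finite families of points of `K` whose symmetric hull is almost `DD K` -/
def S_APPROX : Prop := ∀ (m : ℕ) (K : Set (Fin m → ℝ)) (ε : ℝ), NB K → 0 < ε → ε < 1 →
  ∃ (N : ℕ) (V : Fin N → Fin m → ℝ), (∀ j, V j ∈ K) ∧
    (1 - ε) • DD K ⊆ convexHull ℝ (Set.range V ∪ - Set.range V)

/-- (SUMD) the determinants of a system add up to at least `m!` times the volume of the hull -/
def S_SUMD : Prop := ∀ (m N : ℕ) (V : Fin N → Fin m → ℝ) (κ : Type) [Fintype κ]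
  (A : κ → Matrix (Fin m) (Fin m) ℝ) (t : κ → Fin m → Bool) (η : κ → Fin m → ℝ), Sys V κ A t η →
  m.factorial * volume (convexHull ℝ (Set.range V ∪ - Set.range V)) ≤
    ∑ k, ENNReal.ofReal |(A k).det|

/-- (GAU) `∫ exp (-gauge K) = m! |K|` -/
def S_GAU : Prop := ∀ (m : ℕ) (K : Set (Fin m → ℝ)), NB K →
  ∫⁻ x, ee (gauge K x) = m.factorial * volume K

/-- (RSD) Rogers–Shephard -/
def S_RSD : Prop := ∀ (m : ℕ) (K : Set (Fin m → ℝ)), NB K → volume (DD K) ≤ 2 ^ m * volume K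

/-- (KEYV) the key inequality for a generic family `V` of points of `K` -/
def S_KEYV : Prop := ∀ (m N : ℕ) (K : Set (Fin m → ℝ)) (V : Fin N → Fin m → ℝ), 1 ≤ m → NB K →
  (∀ j, V j ∈ K) → Gen V → Bornology.IsBounded {η : Fin m → ℝ | ∀ j, |η ⬝ᵥ V j| ≤ 1} →
  4 ^ m * (m.factorial * volume (convexHull ℝ (Set.range V ∪ - Set.range V))) ^ 3 *
    (ENNReal.ofReal ((5 * m / (8 * Real.exp 1)) ^ m) * volume (K ∩ -K)) ^ 5 ≤
    (m.factorial * volume K) ^ 8

/-- (KEY) the key inequality -/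
def S_KEY : Prop := ∀ (m : ℕ) (K : Set (Fin m → ℝ)), 1 ≤ m → NB K →
  4 ^ m * (m.factorial * volume (DD K)) ^ 3 *
    (ENNReal.ofReal ((5 * m / (8 * Real.exp 1)) ^ m) * volume (K ∩ -K)) ^ 5 ≤
    (m.factorial * volume K) ^ 8

/-- (POL) polar bodies -/
def S_POL : Prop := ∀ (m : ℕ) (K : Set (Fin m → ℝ)), NB K →
  NB (pol K) ∧ pol (pol K) = K ∧ NB (DD K) ∧ (∀ x ∈ DD K, -x ∈ DD K) ∧
    pol (DD K) = pol K ∩ - pol K

/-- the symmetric Mahler inequality (a theorem of the team, `MP_6fea95_gt.FullMahler`) -/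
def S_SYM : Prop := ∀ (m : ℕ) (L : Set (Fin m → ℝ)), NB L → (∀ x ∈ L, -x ∈ L) →
  ENNReal.ofReal ((4 : ℝ) ^ m / m.factorial) ≤ volume L * volume (pol L)

/-- (ASYM) the lower bound with a loss of a factor `e √m` -/
def S_ASYM : Prop := ∀ (m : ℕ) (K : Set (Fin m → ℝ)), 1 ≤ m → NB K →
  (5 / 2 : ℝ) ^ m ≤ Real.exp 1 * Real.sqrt m * (m.factorial * (volume.real K * volume.real (pol K)))

/-- (TENS) powers of a body: there is a body in dimension `N m` whose volume product is the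
`N`-th power (with the factorials) -/
def S_TENS : Prop := ∀ (m N : ℕ) (K : Set (Fin m → ℝ)), 1 ≤ m → 1 ≤ N → NB K →
  ∃ L : Set (Fin (N * m) → ℝ), NB L ∧
    (N * m).factorial * (volume.real L * volume.real (pol L)) =
      (m.factorial * (volume.real K * volume.real (pol K))) ^ N

/-- (MAIN) the final inequality in coordinates -/
def S_MAIN : Prop := ∀ (m : ℕ) (K : Set (Fin m → ℝ)), NB K →
  (5 / 2 : ℝ) ^ m / m.factorial ≤ volume.real K * volume.real (pol K)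

end H801NS
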